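import Pool.Agent.MP_cce4c9_lc.H87.SpecQ
import Pool.Agent.MP_cce4c9_lc.H7.BaseA

/-! The components of the curve: the ring of rational functions is a product of function fields. -/

set_option autoImplicit false

open WithZero Polynomial
open scoped IntermediateField

namespace Pool.Agent.MP_cce4c9_lc.H58

open H87

section Rat

variable {k K : Type} [Field k] [Field K] [Algebra k K] [Algebra (RatFunc k) K]
  [IsScalarTower k (RatFunc k) K]

theorem adjoin_inv_X (k : Type) [Field k] :
    k⟮(RatFunc.X⁻¹ : RatFunc k)⟯ = ⊤ := by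
  rw [eq_top_iff, ← RatFunc.adjoin_X, IntermediateField.adjoin_simple_le_iff]
  have := (k⟮(RatFunc.X⁻¹ : RatFunc k)⟯).inv_mem
    (IntermediateField.mem_adjoin_simple_self k (RatFunc.X⁻¹ : RatFunc k))
  rwa [inv_inv] at this

theorem mem_adjoin_s (y : K) :
    y ∈ k⟮algebraMap (RatFunc k) K RatFunc.X⁻¹⟯ ↔ ∃ r, algebraMap (RatFunc k) K r = y := by
  have h : k⟮algebraMap (RatFunc k) K RatFunc.X⁻¹⟯ =
      (k⟮(RatFunc.X⁻¹ : RatFunc k)⟯).map (IsScalarTower.toAlgHom k (RatFunc k) K) := by
    rw [IntermediateField.adjoin_map, Set.image_singleton]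
    rfl
  rw [h, adjoin_inv_X, IntermediateField.mem_map]
  constructor
  · rintro ⟨r, -, hr⟩
    exact ⟨r, hr⟩
  · rintro ⟨r, hr⟩
    exact ⟨r, IntermediateField.mem_top, hr⟩

theorem s_nonconst :
    algebraMap (RatFunc k) K RatFunc.X⁻¹ ∉ Set.range (algebraMap k K) := by
  apply nonconst_of_transc
  refine (transcendental_algebraMap_iff (algebraMap (RatFunc k) K).injective).2 ?_
  intro h
  exact RatFunc.transcendental_X (K := k) (IsAlgebraic.inv_iff.1 h)

/-- The field generated by `s` is the image of `k(X)`. -/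
noncomputable def eS (k K : Type) [Field k] [Field K] [Algebra k K] [Algebra (RatFunc k) K]
    [IsScalarTower k (RatFunc k) K] :
    RatFunc k ≃+* k⟮algebraMap (RatFunc k) K RatFunc.X⁻¹⟯ :=
  RingEquiv.ofBijective
    ((algebraMap (RatFunc k) K).codRestrict k⟮algebraMap (RatFunc k) K RatFunc.X⁻¹⟯
      fun r => (mem_adjoin_s _).2 ⟨r, rfl⟩)
    ⟨RingHom.injective _, fun y => by
      obtain ⟨r, hr⟩ := (mem_adjoin_s y.1).1 y.2
      exact ⟨r, Subtype.ext hr⟩⟩

theorem eS_coe (r : RatFunc k) : (eS k K r : K) = algebraMap (RatFunc k) K r := rfl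

theorem finrank_s :
    Module.finrank k⟮algebraMap (RatFunc k) K RatFunc.X⁻¹⟯ K = Module.finrank (RatFunc k) K :=
  (Algebra.finrank_eq_of_equiv_equiv (eS k K) (RingEquiv.refl K) (by ext r; rfl)).symm

theorem li_s {ι : Type} {u : ι → K} (hu : LinearIndependent (RatFunc k) u) :
    LinearIndependent k⟮algebraMap (RatFunc k) K RatFunc.X⁻¹⟯ u := by
  rw [linearIndependent_iff'] at hu ⊢
  intro s g hg i hi
  have h := hu s (fun j => (eS k K).symm (g j)) (by
    rw [← hg]
    refine Finset.sum_congr rfl fun j _ => ?_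
    rw [Algebra.smul_def, Algebra.smul_def, ← eS_coe, RingEquiv.apply_symm_apply]
    rfl) i hi
  simpa using h

end Rat

section Pl

variable {k Q : Type} [Field k] [CommRing Q] [Algebra k Q]

/-- Pull-back of a place along a quotient map. -/
noncomputable def upP (I : Ideal Q) (w : Place k (Q ⧸ I)) : Place k Q where
  val := w.val.comap (Ideal.Quotient.mk I)
  surj := fun y => by
    obtain ⟨x, hx⟩ := w.surj y
    obtain ⟨z, rfl⟩ := Ideal.Quotient.mk_surjective x
    exact ⟨z, hx⟩
  triv := fun a ha => w.triv a ha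

/-- Descent of a place to a quotient. -/
noncomputable def dnP (I : Ideal Q) (v : Place k Q) (h : I ≤ v.val.supp) : Place k (Q ⧸ I) where
  val := v.val.onQuot h
  surj := fun y => by
    obtain ⟨x, hx⟩ := v.surj y
    exact ⟨Ideal.Quotient.mk I x, hx⟩
  triv := fun a ha => v.triv a ha

theorem supp_upP (I : Ideal Q) [hI : I.IsMaximal] (w : Place k (Q ⧸ I)) :
    (upP I w).val.supp = I := by
  refine (hI.eq_of_le (Ideal.IsPrime.ne_top inferInstance) ?_).symm
  exact w.val.self_le_supp_comap I

theorem up_bij [IsArtinianRing Q] : Function.Bijective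
    fun p : (Σ i : MaximalSpectrum Q, Place k (Q ⧸ i.asIdeal)) => upP p.1.asIdeal p.2 := by
  constructor
  · rintro ⟨i, w⟩ ⟨j, w'⟩ h
    have hij : i = j := by
      apply MaximalSpectrum.ext
      have hi := i.isMaximal
      have hj := j.isMaximal
      rw [← supp_upP i.asIdeal w, ← supp_upP j.asIdeal w']
      exact congrArg (fun v : Place k Q => v.val.supp) h
    subst hij
    congr 1
    apply Place.ext
    ext x
    obtain ⟨z, rfl⟩ := Ideal.Quotient.mk_surjective x
    exact congrArg (fun v : Place k Q => v.val z) h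
  · intro v
    refine ⟨⟨⟨v.val.supp, inferInstance⟩, dnP _ v le_rfl⟩, ?_⟩
    apply Place.ext
    ext x
    rfl

end Pl

theorem finrank_Q {k : Type} [Field k] {d m : ℕ} {f : k[X]} (C : Cv k d m f) :
    Module.finrank (RatFunc k) C.Q = d ^ m := by
  classical
  let b : Fin (d ^ m) → C.Q := fun J => ∏ i ∈ Finset.range m, C.x i ^ dig d J i
  have hli : LinearIndependent (RatFunc k) b := by
    rw [Fintype.linearIndependent_iff]
    intro g hg J
    have h := C.ind (fun J => if h : J < d ^ m then g ⟨J, h⟩ else 0) (by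
      rw [Finset.sum_range, ← hg]
      refine Finset.sum_congr rfl fun J _ => ?_
      rw [dif_pos J.2, Algebra.smul_def]) J J.2
    simpa [J.2] using h
  have hsp : ⊤ ≤ Submodule.span (RatFunc k) (Set.range b) := by
    intro y _
    obtain ⟨a, rfl⟩ := C.spn y
    rw [Finset.sum_range]
    refine Submodule.sum_mem _ fun J _ => ?_
    rw [← Algebra.smul_def]
    exact Submodule.smul_mem _ _ (Submodule.subset_span ⟨J, rfl⟩)
  simpa using Module.finrank_eq_card_basis (Module.Basis.mk hli hsp)

theorem cmp : StmtCMP := by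
  intro k _ _ d m f C
  classical
  have hA : IsArtinianRing C.Q := IsArtinianRing.of_finite (RatFunc k) C.Q
  letI fld : ∀ i : MaximalSpectrum C.Q, Field (C.Q ⧸ i.asIdeal) := fun i =>
    haveI := i.isMaximal; Ideal.Quotient.field i.asIdeal
  letI fin : Fintype (MaximalSpectrum C.Q) := Fintype.ofFinite _
  have fd : ∀ i : MaximalSpectrum C.Q, FiniteDimensional (RatFunc k) (C.Q ⧸ i.asIdeal) :=
    fun i => inferInstance
  have hbij : Function.Bijective fun (y : C.Q) (i : MaximalSpectrum C.Q) =>
      Ideal.Quotient.mkₐ (RatFunc k) i.asIdeal y := (IsArtinianRing.equivPi C.Q).bijective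
  refine ⟨{
    I := MaximalSpectrum C.Q
    K := fun i => C.Q ⧸ i.asIdeal
    fld := fld
    ak := fun i => inferInstance
    aR := fun i => inferInstance
    tw := fun i => inferInstance
    fd := fd
    φ := fun i => Ideal.Quotient.mkₐ (RatFunc k) i.asIdeal
    bij := hbij
    ff := fun i => IsFF.of_rat
    up := Equiv.ofBijective _ up_bij
    up_val := fun i w y => rfl
    rk := ?_
    rks := fun i => ?_ }⟩
  · rw [← finrank_Q C, ← Module.finrank_pi_fintype]
    exact (LinearEquiv.finrank_eq (LinearEquiv.ofBijective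
      (LinearMap.pi fun i : MaximalSpectrum C.Q =>
        (Ideal.Quotient.mkₐ (RatFunc k) i.asIdeal).toLinearMap) hbij)).symm
  · have hs : Ideal.Quotient.mkₐ (RatFunc k) i.asIdeal C.s =
        algebraMap (RatFunc k) (C.Q ⧸ i.asIdeal) RatFunc.X⁻¹ :=
      (Ideal.Quotient.mkₐ (RatFunc k) i.asIdeal).commutes _
    rw [hs]
    exact ⟨s_nonconst, finrank_s, fun ι u hu => li_s hu⟩

end Pool.Agent.MP_cce4c9_lc.H58
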